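import Pool.Agent.W2helper81.TV.Stm

/-!
# Piece LOC of the project TV
-/

set_option autoImplicit false

open scoped BigOperators

namespace Pool.Agent.W2helper24.TV

open Pool.Agent.W2helper81.TV Module

/-- The basis given by the generators of a maximal simplicial cone. -/
noncomputable def bs {m : ℕ} {σ : Finset (Fin m → ℤ)} (hc : σ.card = m)
    (hl : LinearIndependent ℝ (fun v : σ => toR (v : Fin m → ℤ))) : Basis σ ℝ (Fin m → ℝ) :=
  haveI : Fintype σ := Finset.fintypeCoeSort σ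
  basisOfLinearIndependentOfCardEqFinrank' _ hl (by simp [hc])

lemma bs_apply {m : ℕ} {σ : Finset (Fin m → ℤ)} (hc : σ.card = m)
    (hl : LinearIndependent ℝ (fun v : σ => toR (v : Fin m → ℤ))) (v : σ) :
    bs hc hl v = toR (v : Fin m → ℤ) := by
  simp [bs]

lemma mem_cone {m : ℕ} {σ : Finset (Fin m → ℤ)} (hc : σ.card = m)
    (hl : LinearIndependent ℝ (fun v : σ => toR (v : Fin m → ℤ))) (x : Fin m → ℝ) :
    x ∈ coneOf σ ↔ ∀ v : σ, 0 ≤ (bs hc hl).repr x v := by
  classical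
  constructor
  · rintro ⟨a, ha, hx⟩ v
    have h1 : x = ∑ w : σ, a w • bs hc hl w := by
      rw [hx, ← Finset.sum_coe_sort σ (fun w => a w • toR w)]
      exact Finset.sum_congr rfl fun w _ => by rw [bs_apply]
    have h2 : (bs hc hl).repr x v = a v := by
      rw [h1]
      have h3 := (bs hc hl).repr_sum_self (fun w : σ => a w)
      exact congrFun h3 v
    rw [h2]
    exact ha v v.2
  · intro h
    refine ⟨fun w => if hw : w ∈ σ then (bs hc hl).repr x ⟨w, hw⟩ else 0, ?_, ?_⟩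
    · intro v hv
      beta_reduce
      rw [dif_pos hv]
      exact h ⟨v, hv⟩
    · rw [← Finset.sum_coe_sort σ]
      conv_lhs => rw [← (bs hc hl).sum_repr x]
      refine Finset.sum_congr rfl fun w _ => ?_
      beta_reduce
      rw [dif_pos w.2, bs_apply]

/-- If `ρ ∈ σ` is in the cone of a subset of `σ` then it belongs to this subset. -/
lemma mem_of_cone {m : ℕ} {σ τ : Finset (Fin m → ℤ)}
    (hl : LinearIndependent ℝ (fun v : σ => toR (v : Fin m → ℤ))) (hτ : τ ⊆ σ)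
    {ρ : Fin m → ℤ} (hρ : ρ ∈ σ) (h : toR ρ ∈ coneOf τ) : ρ ∈ τ := by
  classical
  by_contra hn
  obtain ⟨a, -, ha⟩ := h
  have h1 : ∑ v : σ, (if (v : Fin m → ℤ) = ρ then (1 : ℝ) else
      if (v : Fin m → ℤ) ∈ τ then -a v else 0) • toR (v : Fin m → ℤ) = 0 := by
    rw [Finset.sum_coe_sort σ (fun v => (if v = ρ then (1 : ℝ) else
      if v ∈ τ then -a v else 0) • toR v), ← Finset.add_sum_erase σ _ hρ, if_pos rfl, one_smul]
    have h2 : ∑ v ∈ σ.erase ρ, (if v = ρ then (1 : ℝ) else if v ∈ τ then -a v else 0) • toR v =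
        ∑ v ∈ τ, -(a v • toR v) := by
      symm
      have hsub : τ ⊆ σ.erase ρ := fun v hv => Finset.mem_erase.2
        ⟨fun h => hn (h ▸ hv), hτ hv⟩
      rw [← Finset.sum_subset hsub (f := fun v =>
        (if v = ρ then (1 : ℝ) else if v ∈ τ then -a v else 0) • toR v)]
      · refine Finset.sum_congr rfl fun v hv => ?_
        rw [if_neg (fun h : v = ρ => hn (h ▸ hv)), if_pos hv, neg_smul]
      · intro v hv hv2
        rw [if_neg (Finset.mem_erase.1 hv).1, if_neg hv2, zero_smul]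
    rw [h2, Finset.sum_neg_distrib, ← ha, add_neg_cancel]
  have h3 := Fintype.linearIndependent_iff.1 hl _ h1 ⟨ρ, hρ⟩
  simp at h3

theorem loc : LocStm := by
  classical
  intro m F hF σ hσ ρ hρ x
  obtain ⟨hcard, hli, hcov, hint⟩ := hF
  have hpt : ∀ k : ℕ, ∃ s : F, toR ρ + (1 / ((k : ℝ) + 1)) • x ∈ coneOf (s : Finset (Fin m → ℤ)) :=
    fun k => by
      obtain ⟨s, hs, h⟩ := hcov (toR ρ + (1 / ((k : ℝ) + 1)) • x)
      exact ⟨⟨s, hs⟩, h⟩
  choose s hs using hpt
  obtain ⟨τ, hτ⟩ := Finite.exists_infinite_fiber s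
  have hinf : (s ⁻¹' {τ}).Infinite := Set.infinite_coe_iff.1 hτ
  have hc := hcard τ.1 τ.2
  have hl := hli τ.1 τ.2
  have hmem : toR ρ ∈ coneOf τ.1 := by
    rw [mem_cone hc hl]
    intro v
    by_contra hneg
    push Not at hneg
    set A := (bs hc hl).repr (toR ρ) v with hA
    set B := (bs hc hl).repr x v with hB
    obtain ⟨N, hN⟩ := exists_nat_gt (|B| / (-A))
    obtain ⟨k, hk, hkN⟩ := hinf.exists_gt N
    have hk' : s k = τ := hk
    have h1 := hs k
    rw [hk', mem_cone hc hl] at h1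
    have h2 := h1 v
    rw [map_add, map_smul] at h2
    have h3 : 0 ≤ A + 1 / ((k : ℝ) + 1) * B := h2
    have hk0 : (0 : ℝ) < (k : ℝ) + 1 := by positivity
    have h4 : |B| < -A * ((k : ℝ) + 1) := by
      have h5 : |B| / (-A) < (k : ℝ) + 1 := by
        have : (N : ℝ) < k := by exact_mod_cast hkN
        linarith
      rwa [div_lt_iff₀' (by linarith)] at h5
    have h6 : 1 / ((k : ℝ) + 1) * B ≤ 1 / ((k : ℝ) + 1) * |B| := by
      gcongr
      exact le_abs_self B
    have h7 : 1 / ((k : ℝ) + 1) * |B| < -A := by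
      rw [one_div, inv_mul_lt_iff₀ hk0]
      linarith
    linarith
  have hmem2 : toR ρ ∈ coneOf σ := by
    rw [mem_cone (hcard σ hσ) (hli σ hσ)]
    intro v
    rw [← bs_apply (hcard σ hσ) (hli σ hσ) ⟨ρ, hρ⟩, Basis.repr_self]
    rw [Finsupp.single_apply]
    split_ifs <;> norm_num
  have hmem3 := hint σ hσ τ.1 τ.2 ⟨hmem2, hmem⟩
  have hρτ : ρ ∈ σ ∩ τ.1 := mem_of_cone (hli σ hσ) Finset.inter_subset_left hρ hmem3
  obtain ⟨k, hk⟩ := hinf.nonempty
  have hk' : s k = τ := hk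
  have h1 := hs k
  rw [hk'] at h1
  exact ⟨τ.1, τ.2, (Finset.mem_inter.1 hρτ).2, 1 / ((k : ℝ) + 1), by positivity, h1⟩

end Pool.Agent.W2helper24.TV
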